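import Mathlib

open Filter

namespace Pool.Agent.Results.MP_0e1483_co.Flexibility

/-! ## The statement (positions are numbered from `0`) -/

/-- The infinite word `u` has no factor `xx` with `x` nonempty. -/
def SquareFree {α : Type} (u : ℕ → α) : Prop :=
  ∀ i m, 0 < m → ∃ j < m, u (i + j) ≠ u (i + m + j)

/-- Replacing the letters of `u` at the positions in `P` by holes creates no partial square of
period at least two. -/
def WildcardSet {α : Type} (u : ℕ → α) (P : Set ℕ) : Prop :=
  ∀ i m, 2 ≤ m → ∃ j < m, i + j ∉ P ∧ i + m + j ∉ P ∧ u (i + j) ≠ u (i + m + j)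

/-- Upper density. -/
noncomputable def density (P : Set ℕ) : ℝ :=
  limsup (fun n : ℕ => ((P ∩ Set.Iio n).ncard : ℝ) / n) atTop

/-- The flexibility of an infinite word. -/
noncomputable def flex {α : Type} (u : ℕ → α) : ℝ :=
  sSup {d : ℝ | ∃ P : Set ℕ, WildcardSet u P ∧ d = density P}

/-- `u = lim φ^k (x)` for a morphism `φ` which is prolongable on the letter `x`. -/
def GeneratedBy {α : Type} (φ : α → List α) (x : α) (u : ℕ → α) : Prop :=
  (∃ s, φ x = x :: s) ∧
  (∀ N, ∃ k, N ≤ (((fun w : List α => w.flatMap φ)^[k]) [x]).length) ∧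
  ∀ k i, ∀ h : i < (((fun w : List α => w.flatMap φ)^[k]) [x]).length,
    (((fun w : List α => w.flatMap φ)^[k]) [x])[i] = u i

def PurelyMorphic (u : ℕ → Fin 3) : Prop :=
  ∃ (φ : Fin 3 → List (Fin 3)) (x : Fin 3), GeneratedBy φ x u

def Morphic (u : ℕ → Fin 3) : Prop :=
  ∃ (n : ℕ) (φ : Fin n → List (Fin n)) (x : Fin n) (v : ℕ → Fin n) (τ : Fin n → Fin 3),
    GeneratedBy φ x v ∧ ∀ i, u i = τ (v i)

/-- The supremum of the flexibilities of the purely morphic ternary square-free words. -/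
noncomputable def Mpm : ℝ :=
  sSup {d : ℝ | ∃ u : ℕ → Fin 3, SquareFree u ∧ PurelyMorphic u ∧ d = flex u}

/-- The supremum of the flexibilities of the morphic ternary square-free words. -/
noncomputable def Mm : ℝ :=
  sSup {d : ℝ | ∃ u : ℕ → Fin 3, SquareFree u ∧ Morphic u ∧ d = flex u}

/-! ## The word -/

/-- The six permutations of the letters, arranged in a hexagon: neighbours differ by the exchange
of the first two or of the last two entries. -/
def fr : Fin 6 → Fin 3 → Fin 3 :=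
  ![![0, 1, 2], ![1, 0, 2], ![1, 2, 0], ![2, 1, 0], ![2, 0, 1], ![0, 2, 1]]

def pat (r : ℕ) : Fin 3 := ([0, 1, 2, 1, 0, 2, 0, 1, 2, 0, 2, 1, 0, 1, 2] : List (Fin 3)).getD r 0

def hole (r : ℕ) : Bool := r == 6 || r == 8 || r == 15

/-- The block of 16 letters for the vertex `v` of the hexagon followed by `v2`. -/
def wl (v v2 : Fin 6) (r : ℕ) : Fin 3 :=
  if r = 15 then (if fr v2 2 = fr v 2 then fr v 0 else fr v 1) else fr v (pat r)

/-- Three closed walks at the vertex `0` of the hexagon. -/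
def fw (x : Fin 3) (t : ℕ) : Fin 6 :=
  ((![[0, 5, 4, 3, 2, 1], [0, 5, 4, 3, 4, 5], [0, 5, 4, 5, 0, 1]] : Fin 3 → List (Fin 6)) x).getD t 0

/-- The images of the three letters under the `96`-uniform morphism. -/
def phi (x : Fin 3) (r : ℕ) : Fin 3 := wl (fw x (r / 16)) (fw x ((r / 16 + 1) % 6)) (r % 16)

def u (n : ℕ) : Fin 3 :=
  if h : n = 0 then 0 else phi (u (n / 96)) (n % 96)
termination_by n
decreasing_by exact Nat.div_lt_self (Nat.pos_of_ne_zero h) (by norm_num)

lemma u_zero : u 0 = 0 := by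
  rw [u]; simp

lemma u_eq (n : ℕ) : u n = phi (u (n / 96)) (n % 96) := by
  by_cases h : n = 0
  · subst h
    rw [Nat.zero_div, Nat.zero_mod, u_zero]
    decide
  · rw [u, dif_neg h]

def p (j : ℕ) : Fin 6 := fw (u (j / 6)) (j % 6)

def Adj (v w : Fin 6) : Prop := w = v + 1 ∨ v = w + 1

instance (v w : Fin 6) : Decidable (Adj v w) := by unfold Adj; infer_instance

lemma p_adj (j : ℕ) : Adj (p j) (p (j + 1)) := by
  have h1 : ∀ x : Fin 3, ∀ r < 5, Adj (fw x r) (fw x (r + 1)) := by decide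
  have h2 : ∀ x y : Fin 3, Adj (fw x 5) (fw y 0) := by decide
  unfold p
  by_cases h : j % 6 < 5
  · have e1 : (j + 1) / 6 = j / 6 := by omega
    have e2 : (j + 1) % 6 = j % 6 + 1 := by omega
    rw [e1, e2]
    exact h1 _ _ h
  · have e1 : (j + 1) % 6 = 0 := by omega
    have e2 : j % 6 = 5 := by omega
    rw [e1, e2]
    exact h2 _ _

lemma u_p (i : ℕ) : u i = wl (p (i / 16)) (p (i / 16 + 1)) (i % 16) := by
  rw [u_eq, phi, p, p]
  have e1 : i / 16 / 6 = i / 96 := by rw [Nat.div_div_eq_div_mul]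
  have e2 : i % 96 / 16 = i / 16 % 6 := by omega
  have e3 : i % 96 % 16 = i % 16 := by omega
  have h0 : ∀ x y : Fin 3, fw x 0 = fw y 0 := by decide
  rw [e2, e3, e1]
  by_cases h : i / 16 % 6 < 5
  · have e4 : (i / 16 + 1) / 6 = i / 96 := by omega
    have e5 : (i / 16 + 1) % 6 = i / 16 % 6 + 1 := by omega
    have e6 : (i / 16 % 6 + 1) % 6 = i / 16 % 6 + 1 := by omega
    rw [e4, e5, e6]
  · have e5 : (i / 16 + 1) % 6 = 0 := by omega
    have e6 : (i / 16 % 6 + 1) % 6 = 0 := by omega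
    rw [e5, e6, h0]

lemma u_ne_succ (i : ℕ) : u i ≠ u (i + 1) := by
  have h1 : ∀ v w : Fin 6, Adj v w → ∀ r < 15, wl v w r ≠ wl v w (r + 1) := by decide
  have h2 : ∀ v w x : Fin 6, Adj v w → wl v w 15 ≠ wl w x 0 := by decide
  rw [u_p i, u_p (i + 1)]
  by_cases h : i % 16 < 15
  · have e1 : (i + 1) / 16 = i / 16 := by omega
    have e2 : (i + 1) % 16 = i % 16 + 1 := by omega
    rw [e1, e2]
    exact h1 _ _ (p_adj _) _ h
  · have e1 : (i + 1) / 16 = i / 16 + 1 := by omega
    have e2 : (i + 1) % 16 = 0 := by omega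
    have e3 : i % 16 = 15 := by omega
    rw [e1, e2, e3]
    exact h2 _ _ _ (p_adj _)

/-! ### Finite checks -/

/-- The blocks as numbers in base four; the digit `3` stands for a hole. -/
def wn (v : ℕ) : ℕ := ([3831724132, 3777444129, 3381113225, 3326833222, 3524998674, 3633558680] : List ℕ).getD v 0

def dg (vs : List ℕ) (i : ℕ) : ℕ := (wn (vs.getD (i / 16) 0) >>> (2 * (i % 16))) &&& 3

def psq (g h : ℕ → ℕ) : ℕ → ℕ → ℕ → Bool
  | _, _, 0 => true
  | i, j, m + 1 => (g i == 3 || h j == 3 || g i == h j) && psq g h (i + 1) (j + 1) m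

lemma psq_false (g h : ℕ → ℕ) : ∀ (m i j : ℕ), psq g h i j m = false →
    ∃ t < m, g (i + t) ≠ 3 ∧ h (j + t) ≠ 3 ∧ g (i + t) ≠ h (j + t)
  | 0, i, j, H => by simp [psq] at H
  | m + 1, i, j, H => by
    rw [psq, Bool.and_eq_false_iff] at H
    rcases H with H | H
    · refine ⟨0, by omega, ?_⟩
      simp only [Bool.or_eq_false_iff, beq_eq_false_iff_ne] at H
      exact ⟨H.1.1, H.1.2, H.2⟩
    · obtain ⟨t, ht, h1, h2, h3⟩ := psq_false g h m (i + 1) (j + 1) H
      refine ⟨t + 1, by omega, ?_⟩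
      have e1 : i + (t + 1) = i + 1 + t := by omega
      have e2 : j + (t + 1) = j + 1 + t := by omega
      rw [e1, e2]
      exact ⟨h1, h2, h3⟩

def chk (vs : List ℕ) : Bool :=
  (List.range 16).all fun i => (List.range 29).all fun m =>
    !(psq (dg vs) (dg vs) i (i + (m + 2)) (m + 2))

set_option maxRecDepth 100000 in
lemma small_periods : ∀ v0 v1 : Fin 6, Adj v0 v1 → ∀ v2 : Fin 6, Adj v1 v2 →
    ∀ v3 : Fin 6, Adj v2 v3 → ∀ v4 : Fin 6, Adj v3 v4 →
    chk [v0.val, v1.val, v2.val, v3.val, v4.val] = true := by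
  decide +kernel

set_option maxRecDepth 100000 in
lemma sync : ∀ v w w2 : Fin 6, Adj w w2 → ∀ s < 16, 0 < s →
    psq (dg [v.val]) (dg [w.val, w2.val]) 0 s 16 = false := by
  decide +kernel

lemma dg_eq : ∀ v w : Fin 6, ∀ r < 16,
    (hole r = true ∧ (wn v.val >>> (2 * r)) &&& 3 = 3) ∨
    (hole r = false ∧ (wn v.val >>> (2 * r)) &&& 3 = (wl v w r).val) := by
  decide +kernel

lemma pos14 : ∀ v w x v' w' : Fin 6, Adj v x → Adj w x → wl v v' 14 = wl w w' 14 → v = w := by
  decide +kernel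

lemma block_inj : ∀ v w v' w' : Fin 6, wl v v' 0 = wl w w' 0 → wl v v' 1 = wl w w' 1 → v = w := by
  decide +kernel

/-! ### Partial squares in `u` give squares in the walk `p` -/

lemma dg_u (a t : ℕ) (vs : List ℕ) (hvs : vs.getD (t / 16) 0 = (p (a + t / 16)).val) :
    (hole (t % 16) = true ∧ dg vs t = 3) ∨
    (hole (t % 16) = false ∧ dg vs t = (u (16 * a + t)).val) := by
  rw [dg, hvs, u_p (16 * a + t)]
  have e1 : (16 * a + t) / 16 = a + t / 16 := by omega
  have e2 : (16 * a + t) % 16 = t % 16 := by omega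
  rw [e1, e2]
  exact dg_eq _ _ _ (Nat.mod_lt _ (by norm_num))

/-- compatibility of the shift by `m` on the window of length `n` starting at `i` -/
def Compat (i m n : ℕ) : Prop :=
  ∀ j < n, hole ((i + j) % 16) = true ∨ hole ((i + m + j) % 16) = true ∨ u (i + j) = u (i + m + j)

lemma not_compat {i m n a b x y l : ℕ} {vs ws : List ℕ} (H : Compat i m n)
    (hf : psq (dg vs) (dg ws) x y l = false)
    (hv : ∀ t < l, vs.getD ((x + t) / 16) 0 = (p (a + (x + t) / 16)).val)
    (hw : ∀ t < l, ws.getD ((y + t) / 16) 0 = (p (b + (y + t) / 16)).val)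
    (h1 : i ≤ 16 * a + x) (h2 : 16 * a + x + l ≤ i + n) (h3 : 16 * a + x + m = 16 * b + y) :
    False := by
  obtain ⟨t, ht, k1, k2, k3⟩ := psq_false _ _ _ _ _ hf
  have g1 := dg_u a (x + t) vs (hv t ht)
  have g2 := dg_u b (y + t) ws (hw t ht)
  rcases g1 with ⟨_, g1⟩ | ⟨o1, g1⟩
  · exact k1 g1
  rcases g2 with ⟨_, g2⟩ | ⟨o2, g2⟩
  · exact k2 g2
  have := H (16 * a + x + t - i) (by omega)
  have e1 : i + (16 * a + x + t - i) = 16 * a + (x + t) := by omega
  have e2 : i + m + (16 * a + x + t - i) = 16 * b + (y + t) := by omega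
  have e3 : (16 * a + (x + t)) % 16 = (x + t) % 16 := by omega
  have e4 : (16 * b + (y + t)) % 16 = (y + t) % 16 := by omega
  rw [e1, e2, e3, e4, o1, o2] at this
  rcases this with h | h | h
  · exact absurd h (by simp)
  · exact absurd h (by simp)
  · exact k3 (by rw [g1, g2, h])

lemma chk_spec {vs : List ℕ} (h : chk vs = true) {i m : ℕ} (hi : i < 16) (hm : 2 ≤ m)
    (hm' : m < 31) : psq (dg vs) (dg vs) i (i + m) m = false := by
  rw [chk, List.all_eq_true] at h
  have h1 := h i (List.mem_range.2 hi)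
  rw [List.all_eq_true] at h1
  have h2 := h1 (m - 2) (List.mem_range.2 (by omega))
  have e : m - 2 + 2 = m := by omega
  rw [e] at h2
  simpa using h2

lemma large_period {i m : ℕ} (hm : 2 ≤ m) (H : Compat i m m) : 31 ≤ m := by
  by_contra hlt
  have hc := small_periods _ _ (p_adj (i / 16)) _ (p_adj (i / 16 + 1)) _ (p_adj (i / 16 + 2)) _
    (p_adj (i / 16 + 3))
  have hf := chk_spec hc (i := i % 16) (m := m) (Nat.mod_lt _ (by norm_num)) hm (by omega)
  have key : ∀ k < 5, ([(p (i / 16)).val, (p (i / 16 + 1)).val, (p (i / 16 + 1 + 1)).val,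
      (p (i / 16 + 2 + 1)).val, (p (i / 16 + 3 + 1)).val] : List ℕ).getD k 0 =
      (p (i / 16 + k)).val := by
    intro k hk
    interval_cases k <;> rfl
  exact not_compat (a := i / 16) (b := i / 16) H hf
    (fun t ht => key _ (by omega)) (fun t ht => key _ (by omega)) (by omega) (by omega) (by omega)

lemma dvd_period {i m : ℕ} (hm : 31 ≤ m) (H : Compat i m m) : m % 16 = 0 := by
  by_contra h0
  have hf := sync (p ((i + 15) / 16)) _ _ (p_adj ((i + 15) / 16 + m / 16)) (m % 16)
    (Nat.mod_lt _ (by norm_num)) (by omega)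
  refine not_compat (a := (i + 15) / 16) (b := (i + 15) / 16 + m / 16) H hf ?_ ?_ (by omega)
    (by omega) (by omega)
  · intro t ht
    have e : (0 + t) / 16 = 0 := by omega
    rw [e]
    rfl
  · intro t ht
    have e : (m % 16 + t) / 16 < 2 := by omega
    interval_cases h : (m % 16 + t) / 16 <;> rfl

lemma level1 {i m : ℕ} (hm : 2 ≤ m) (H : Compat i m m) :
    ∃ q a, 2 ≤ q ∧ m = 16 * q ∧ ∀ c < q, p (a + c) = p (a + q + c) := by
  have h31 := large_period hm H
  have h16 := dvd_period h31 H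
  obtain ⟨q, hq⟩ : ∃ q, m = 16 * q := ⟨m / 16, by omega⟩
  have hblock : ∀ c, i ≤ 16 * c → 16 * c + 2 ≤ i + m → p c = p (c + q) := by
    intro c hc1 hc2
    have h0 : u (16 * c) = u (16 * (c + q)) := by
      have := H (16 * c - i) (by omega)
      have e1 : i + (16 * c - i) = 16 * c := by omega
      have e2 : i + m + (16 * c - i) = 16 * (c + q) := by omega
      have e3 : 16 * c % 16 = 0 := by omega
      have e4 : 16 * (c + q) % 16 = 0 := by omega
      rw [e1, e2, e3, e4] at this
      rcases this with h | h | h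
      · exact absurd h (by decide)
      · exact absurd h (by decide)
      · exact h
    have h1 : u (16 * c + 1) = u (16 * (c + q) + 1) := by
      have := H (16 * c + 1 - i) (by omega)
      have e1 : i + (16 * c + 1 - i) = 16 * c + 1 := by omega
      have e2 : i + m + (16 * c + 1 - i) = 16 * (c + q) + 1 := by omega
      have e3 : (16 * c + 1) % 16 = 1 := by omega
      have e4 : (16 * (c + q) + 1) % 16 = 1 := by omega
      rw [e1, e2, e3, e4] at this
      rcases this with h | h | h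
      · exact absurd h (by decide)
      · exact absurd h (by decide)
      · exact h
    rw [u_p, u_p (16 * (c + q))] at h0
    rw [u_p, u_p (16 * (c + q) + 1)] at h1
    have e1 : 16 * c / 16 = c := by omega
    have e2 : 16 * (c + q) / 16 = c + q := by omega
    have e3 : 16 * c % 16 = 0 := by omega
    have e4 : 16 * (c + q) % 16 = 0 := by omega
    have e5 : (16 * c + 1) / 16 = c := by omega
    have e6 : (16 * (c + q) + 1) / 16 = c + q := by omega
    have e7 : (16 * c + 1) % 16 = 1 := by omega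
    have e8 : (16 * (c + q) + 1) % 16 = 1 := by omega
    rw [e1, e2, e3, e4] at h0
    rw [e5, e6, e7, e8] at h1
    exact block_inj _ _ _ _ h0 h1
  have hq2 : 2 ≤ q := by omega
  by_cases ht : i % 16 = 0
  · refine ⟨q, i / 16, hq2, hq, fun c hc => ?_⟩
    rw [hblock (i / 16 + c) (by omega) (by omega)]
    congr 1
    omega
  by_cases ht' : i % 16 = 15
  · refine ⟨q, i / 16 + 1, hq2, hq, fun c hc => ?_⟩
    rw [hblock (i / 16 + 1 + c) (by omega) (by omega)]
    congr 1
    omega
  · refine ⟨q, i / 16, hq2, hq, fun c hc => ?_⟩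
    rcases Nat.eq_zero_or_pos c with h0 | h0
    · subst h0
      -- the vertex at the left end, from position 14
      have h14 : u (16 * (i / 16) + 14) = u (16 * (i / 16 + q) + 14) := by
        have := H (14 - i % 16) (by omega)
        have e1 : i + (14 - i % 16) = 16 * (i / 16) + 14 := by omega
        have e2 : i + m + (14 - i % 16) = 16 * (i / 16 + q) + 14 := by omega
        have e3 : (16 * (i / 16) + 14) % 16 = 14 := by omega
        have e4 : (16 * (i / 16 + q) + 14) % 16 = 14 := by omega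
        rw [e1, e2, e3, e4] at this
        rcases this with h | h | h
        · exact absurd h (by decide)
        · exact absurd h (by decide)
        · exact h
      rw [u_p, u_p (16 * (i / 16 + q) + 14)] at h14
      have e5 : (16 * (i / 16) + 14) / 16 = i / 16 := by omega
      have e6 : (16 * (i / 16 + q) + 14) / 16 = i / 16 + q := by omega
      have e7 : (16 * (i / 16) + 14) % 16 = 14 := by omega
      have e8 : (16 * (i / 16 + q) + 14) % 16 = 14 := by omega
      rw [e5, e6, e7, e8] at h14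
      have hx : p (i / 16 + 1) = p (i / 16 + 1 + q) := hblock (i / 16 + 1) (by omega) (by omega)
      have hx' : p (i / 16 + q + 1) = p (i / 16 + 1) := by
        rw [hx]; congr 1; omega
      have a1 := p_adj (i / 16)
      have a2 := p_adj (i / 16 + q)
      rw [hx'] at a2
      exact pos14 _ _ _ _ _ a1 a2 h14
    · rw [hblock (i / 16 + c) (by omega) (by omega)]
      congr 1
      omega

/-! ### Squares in the walk give squares in `u` -/

def gl (vs : List ℕ) (n : ℕ) : ℕ :=
  (([[4, 9, 8, 7, 6, 5], [4, 9, 8, 7, 8, 9], [4, 9, 8, 9, 4, 5]] : List (List ℕ)).getD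
    (vs.getD (n / 6) 0) []).getD (n % 6) 0

def chk2 (vs : List ℕ) : Bool :=
  (List.range 6).all fun i => (List.range 9).all fun m =>
    !(psq (gl vs) (gl vs) i (i + (m + 2)) (m + 2))

set_option maxRecDepth 100000 in
lemma small_periods2 : ∀ v0 v1 : Fin 3, v0 ≠ v1 → ∀ v2 : Fin 3, v1 ≠ v2 →
    ∀ v3 : Fin 3, v2 ≠ v3 → ¬ (v0 = v2 ∧ v1 = v3) → ∀ v4 : Fin 3, v3 ≠ v4 →
    ¬ (v1 = v3 ∧ v2 = v4) →
    chk2 [v0.val, v1.val, v2.val, v3.val, v4.val] = true := by
  decide +kernel

lemma gl_eq : ∀ x : Fin 3, ∀ r < 6, gl [x.val] r = (fw x r).val + 4 := by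
  decide +kernel

lemma gl_p (g n : ℕ) (vs : List ℕ) (hvs : vs.getD (n / 6) 0 = (u (g + n / 6)).val) :
    gl vs n = (p (6 * g + n)).val + 4 := by
  have h := gl_eq (u (g + n / 6)) (n % 6) (Nat.mod_lt _ (by norm_num))
  rw [p]
  have e1 : (6 * g + n) / 6 = g + n / 6 := by omega
  have e2 : (6 * g + n) % 6 = n % 6 := by omega
  rw [e1, e2, ← h, gl, hvs, gl]
  have e3 : n % 6 / 6 = 0 := by omega
  have e4 : n % 6 % 6 = n % 6 := by omega
  rw [e3, e4]
  rfl

lemma sync2 : ∀ x y z : Fin 3, y ≠ z → ∀ s < 6, 0 < s →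
    ∃ r < 6, fw x r ≠ (if s + r < 6 then fw y (s + r) else fw z (s + r - 6)) := by
  decide +kernel

lemma pos4 : ∀ x y : Fin 3, fw x 4 = fw y 4 → x = y := by
  decide +kernel

lemma level2 {a q : ℕ} (hq : 2 ≤ q) (H : ∀ c < q, p (a + c) = p (a + q + c))
    (h2 : ∀ i, ¬ (u i = u (i + 2) ∧ u (i + 1) = u (i + 3))) :
    ∃ k g, 2 ≤ k ∧ q = 6 * k ∧ ∀ c < k, u (g + c) = u (g + k + c) := by
  have hq11 : 11 ≤ q := by
    by_contra hlt
    have hc := small_periods2 _ _ (u_ne_succ (a / 6)) _ (u_ne_succ (a / 6 + 1)) _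
      (u_ne_succ (a / 6 + 2)) (h2 (a / 6)) _ (u_ne_succ (a / 6 + 3)) (h2 (a / 6 + 1))
    have hf : psq (gl [(u (a / 6)).val, (u (a / 6 + 1)).val, (u (a / 6 + 1 + 1)).val,
        (u (a / 6 + 2 + 1)).val, (u (a / 6 + 3 + 1)).val]) (gl [(u (a / 6)).val,
        (u (a / 6 + 1)).val, (u (a / 6 + 1 + 1)).val, (u (a / 6 + 2 + 1)).val,
        (u (a / 6 + 3 + 1)).val]) (a % 6) (a % 6 + q) q = false := by
      rw [chk2, List.all_eq_true] at hc
      have h1 := hc (a % 6) (List.mem_range.2 (Nat.mod_lt _ (by norm_num)))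
      rw [List.all_eq_true] at h1
      have h2 := h1 (q - 2) (List.mem_range.2 (by omega))
      have e : q - 2 + 2 = q := by omega
      rw [e] at h2
      simpa using h2
    obtain ⟨t, ht, -, -, k3⟩ := psq_false _ _ _ _ _ hf
    have key : ∀ k < 5, ([(u (a / 6)).val, (u (a / 6 + 1)).val, (u (a / 6 + 1 + 1)).val,
        (u (a / 6 + 2 + 1)).val, (u (a / 6 + 3 + 1)).val] : List ℕ).getD k 0 =
        (u (a / 6 + k)).val := by
      intro k hk
      interval_cases k <;> rfl
    apply k3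
    rw [gl_p (a / 6) _ _ (key _ (by omega)), gl_p (a / 6) _ _ (key _ (by omega))]
    have e1 : 6 * (a / 6) + (a % 6 + t) = a + t := by omega
    have e2 : 6 * (a / 6) + (a % 6 + q + t) = a + q + t := by omega
    rw [e1, e2, H t ht]
  have h6 : q % 6 = 0 := by
    by_contra h0
    obtain ⟨r, hr, hne⟩ := sync2 (u ((a + 5) / 6)) _ _ (u_ne_succ ((a + 5) / 6 + q / 6)) (q % 6)
      (Nat.mod_lt _ (by norm_num)) (by omega)
    apply hne
    have hh := H (6 * ((a + 5) / 6) - a + r) (by omega)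
    have e1 : a + (6 * ((a + 5) / 6) - a + r) = 6 * ((a + 5) / 6) + r := by omega
    have e2 : a + q + (6 * ((a + 5) / 6) - a + r) = 6 * ((a + 5) / 6 + q / 6) + (q % 6 + r) := by
      omega
    rw [e1, e2, p, p] at hh
    have e3 : (6 * ((a + 5) / 6) + r) / 6 = (a + 5) / 6 := by omega
    have e4 : (6 * ((a + 5) / 6) + r) % 6 = r := by omega
    rw [e3, e4] at hh
    by_cases hlt : q % 6 + r < 6
    · rw [if_pos hlt, hh]
      have e5 : (6 * ((a + 5) / 6 + q / 6) + (q % 6 + r)) / 6 = (a + 5) / 6 + q / 6 := by omega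
      have e6 : (6 * ((a + 5) / 6 + q / 6) + (q % 6 + r)) % 6 = q % 6 + r := by omega
      rw [e5, e6]
    · rw [if_neg hlt, hh]
      have e5 : (6 * ((a + 5) / 6 + q / 6) + (q % 6 + r)) / 6 = (a + 5) / 6 + q / 6 + 1 := by
        omega
      have e6 : (6 * ((a + 5) / 6 + q / 6) + (q % 6 + r)) % 6 = q % 6 + r - 6 := by omega
      rw [e5, e6]
  obtain ⟨k, hk⟩ : ∃ k, q = 6 * k := ⟨q / 6, by omega⟩
  have hblock : ∀ c, a ≤ 6 * c + 4 → 6 * c + 4 < a + q → u c = u (c + k) := by
    intro c hc1 hc2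
    have hh := H (6 * c + 4 - a) (by omega)
    have e1 : a + (6 * c + 4 - a) = 6 * c + 4 := by omega
    have e2 : a + q + (6 * c + 4 - a) = 6 * (c + k) + 4 := by omega
    rw [e1, e2, p, p] at hh
    have e3 : (6 * c + 4) / 6 = c := by omega
    have e4 : (6 * (c + k) + 4) / 6 = c + k := by omega
    have e5 : (6 * c + 4) % 6 = 4 := by omega
    have e6 : (6 * (c + k) + 4) % 6 = 4 := by omega
    rw [e3, e4, e5, e6] at hh
    exact pos4 _ _ hh
  by_cases ht : a % 6 = 5
  · refine ⟨k, a / 6 + 1, by omega, hk, fun c hc => ?_⟩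
    rw [hblock (a / 6 + 1 + c) (by omega) (by omega)]
    congr 1
    omega
  · refine ⟨k, a / 6, by omega, hk, fun c hc => ?_⟩
    rw [hblock (a / 6 + c) (by omega) (by omega)]
    congr 1
    omega

lemma no_square2 (i : ℕ) : ¬ (u i = u (i + 2) ∧ u (i + 1) = u (i + 3)) := by
  rintro ⟨h1, h2⟩
  have H : Compat i 2 2 := by
    intro j hj
    interval_cases j
    · exact Or.inr (Or.inr h1)
    · exact Or.inr (Or.inr h2)
  have := large_period le_rfl H
  omega

theorem no_partial_square : ∀ m, 2 ≤ m → ∀ i, ¬ Compat i m m := by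
  intro m
  induction m using Nat.strong_induction_on with
  | _ m ih =>
    intro hm i H
    obtain ⟨q, a, hq, hmq, hp⟩ := level1 hm H
    obtain ⟨k, g, hk, hqk, hu⟩ := level2 hq hp no_square2
    exact ih k (by omega) hk g (fun c hc => Or.inr (Or.inr (hu c hc)))

/-- The wildcard set. -/
def PP : Set ℕ := {i | hole (i % 16) = true}

theorem wildcard : WildcardSet u PP := by
  intro i m hm
  by_contra hcon
  push Not at hcon
  refine no_partial_square m hm i (fun j hj => ?_)
  by_cases h1 : hole ((i + j) % 16) = true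
  · exact Or.inl h1
  by_cases h2 : hole ((i + m + j) % 16) = true
  · exact Or.inr (Or.inl h2)
  · exact Or.inr (Or.inr (hcon j hj h1 h2))

theorem squareFree : SquareFree u := by
  intro i m hm
  rcases Nat.lt_or_ge 1 m with h | h
  · obtain ⟨j, hj, -, -, hne⟩ := wildcard i m h
    exact ⟨j, hj, hne⟩
  · have : m = 1 := by omega
    subst this
    exact ⟨0, by norm_num, u_ne_succ i⟩

/-! ### The word is purely morphic -/

def phiL (x : Fin 3) : List (Fin 3) := (List.range 96).map (phi x)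

lemma flat (n : ℕ) : ((List.range n).map u).flatMap phiL = (List.range (96 * n)).map u := by
  induction n with
  | zero => simp
  | succ n ih =>
    rw [List.range_succ, List.map_append, List.flatMap_append, ih, Nat.mul_succ, List.range_add,
      List.map_append]
    congr 1
    rw [List.map_singleton, List.flatMap_singleton, phiL, List.map_map]
    refine List.map_congr_left (fun r hr => ?_)
    have hr' := List.mem_range.1 hr
    rw [Function.comp_apply, u_eq (96 * n + r)]
    have e1 : (96 * n + r) / 96 = n := by omega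
    have e2 : (96 * n + r) % 96 = r := by omega
    rw [e1, e2]

lemma iter_eq (k : ℕ) : ((fun w : List (Fin 3) => w.flatMap phiL)^[k]) [0] =
    (List.range (96 ^ k)).map u := by
  induction k with
  | zero =>
    rw [Function.iterate_zero, id_eq, pow_zero, List.range_one, List.map_singleton, u_zero]
  | succ k ih =>
    rw [Function.iterate_succ_apply', ih, flat, pow_succ, Nat.mul_comm]

theorem generatedBy : GeneratedBy phiL 0 u := by
  refine ⟨?_, ?_, ?_⟩
  · refine ⟨((List.range 95).map Nat.succ).map (phi 0), ?_⟩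
    rw [phiL, List.range_succ_eq_map, List.map_cons]
    congr 1
  · intro N
    refine ⟨N, ?_⟩
    rw [iter_eq, List.length_map, List.length_range]
    exact (Nat.lt_pow_self (by norm_num)).le
  · intro k i h
    have : ∀ (l : List (Fin 3)) (hl : l = (List.range (96 ^ k)).map u) (h : i < l.length),
        l[i] = u i := by
      rintro l rfl h
      simp
    exact this _ (iter_eq k) h

theorem purelyMorphic : PurelyMorphic u := ⟨phiL, 0, generatedBy⟩

lemma PurelyMorphic.morphic {w : ℕ → Fin 3} (h : PurelyMorphic w) : Morphic w := by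
  obtain ⟨φ, x, h⟩ := h
  exact ⟨3, φ, x, w, id, h, fun _ => rfl⟩

/-! ### Densities -/

lemma ncard_eq (P : Set ℕ) [DecidablePred (· ∈ P)] (n : ℕ) :
    (P ∩ Set.Iio n).ncard = Nat.count (· ∈ P) n := by
  rw [Nat.count_eq_card_filter_range, ← Set.ncard_coe_finset]
  congr 1
  ext i
  simp [and_comm]

instance : DecidablePred (· ∈ PP) := fun i => by
  unfold PP
  exact inferInstanceAs (Decidable (hole (i % 16) = true))

lemma count_block (k : ℕ) : Nat.count (fun j => 16 * k + j ∈ PP) 16 = 3 := by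
  have : (fun j => 16 * k + j ∈ PP) = (fun j => hole (j % 16) = true) := by
    funext j
    have e : (16 * k + j) % 16 = j % 16 := by omega
    simp only [PP, Set.mem_ofPred_eq, e]
  simp only [this]
  decide

lemma count_mul (k : ℕ) : Nat.count (· ∈ PP) (16 * k) = 3 * k := by
  induction k with
  | zero => simp
  | succ k ih => rw [Nat.mul_succ, Nat.count_add, ih, count_block, Nat.mul_succ]

lemma count_bounds (n : ℕ) : 3 * (n / 16) ≤ Nat.count (· ∈ PP) n ∧
    Nat.count (· ∈ PP) n ≤ 3 * (n / 16) + 3 := by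
  have e : n = 16 * (n / 16) + n % 16 := by omega
  have h1 : Nat.count (· ∈ PP) n = 3 * (n / 16) +
      Nat.count (fun j => 16 * (n / 16) + j ∈ PP) (n % 16) := by
    conv_lhs => rw [e]
    rw [Nat.count_add, count_mul]
  have h2 : Nat.count (fun j => 16 * (n / 16) + j ∈ PP) (n % 16) ≤
      Nat.count (fun j => 16 * (n / 16) + j ∈ PP) 16 :=
    Nat.count_monotone _ (by omega)
  rw [count_block] at h2
  omega

lemma tendsto_PP : Tendsto (fun n : ℕ => ((PP ∩ Set.Iio n).ncard : ℝ) / n) atTop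
    (nhds (3 / 16)) := by
  rw [tendsto_iff_norm_sub_tendsto_zero]
  refine squeeze_zero' (g := fun n : ℕ => 3 / (n : ℝ)) (Eventually.of_forall fun n => norm_nonneg _)
    ?_ (tendsto_const_div_atTop_nhds_zero_nat 3)
  filter_upwards [eventually_gt_atTop 0] with n hn
  have hn' : (0 : ℝ) < n := by exact_mod_cast hn
  rw [ncard_eq]
  obtain ⟨h1, h2⟩ := count_bounds n
  have h3 : (n : ℝ) ≤ 16 * ((n / 16 : ℕ) : ℝ) + 15 := by
    have : n ≤ 16 * (n / 16) + 15 := by omega
    exact_mod_cast this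
  have h4 : 16 * ((n / 16 : ℕ) : ℝ) ≤ n := by
    have : 16 * (n / 16) ≤ n := by omega
    exact_mod_cast this
  have h1' : 3 * ((n / 16 : ℕ) : ℝ) ≤ (Nat.count (· ∈ PP) n : ℝ) := by exact_mod_cast h1
  have h2' : (Nat.count (· ∈ PP) n : ℝ) ≤ 3 * ((n / 16 : ℕ) : ℝ) + 3 := by exact_mod_cast h2
  have e : (Nat.count (· ∈ PP) n : ℝ) / n - 3 / 16 =
      ((Nat.count (· ∈ PP) n : ℝ) - 3 / 16 * n) / n := by
    field_simp
  rw [e, Real.norm_eq_abs, abs_div, abs_of_pos hn']
  refine div_le_div_of_nonneg_right ?_ hn'.le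
  rw [abs_le]
  constructor <;> linarith

theorem density_PP : density PP = 3 / 16 := tendsto_PP.limsup_eq

lemma density_le_one (P : Set ℕ) : density P ≤ 1 := by
  have h0 : ∀ n : ℕ, (0 : ℝ) ≤ ((P ∩ Set.Iio n).ncard : ℝ) / n := fun n => by positivity
  have h1 : ∀ n : ℕ, ((P ∩ Set.Iio n).ncard : ℝ) / n ≤ 1 := by
    intro n
    refine div_le_one_of_le₀ ?_ (Nat.cast_nonneg n)
    have h2 : (P ∩ Set.Iio n).ncard ≤ n := by
      classical
      rw [ncard_eq]
      exact Nat.count_le _
    exact_mod_cast h2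
  refine limsup_le_of_le ?_ (Eventually.of_forall h1)
  exact (isBoundedUnder_of ⟨0, fun n => h0 n⟩ :
    IsBoundedUnder (· ≥ ·) atTop fun n : ℕ => ((P ∩ Set.Iio n).ncard : ℝ) / n).isCoboundedUnder_le

lemma flex_le_one (w : ℕ → Fin 3) : flex w ≤ 1 :=
  Real.sSup_le (by rintro _ ⟨P, -, rfl⟩; exact density_le_one P) zero_le_one

lemma le_flex : 3 / 16 ≤ flex u :=
  le_csSup ⟨1, by rintro _ ⟨P, -, rfl⟩; exact density_le_one P⟩ ⟨PP, wildcard, density_PP.symm⟩

theorem le_Mpm : 3 / 16 ≤ Mpm :=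
  le_flex.trans (le_csSup ⟨1, by rintro _ ⟨w, -, -, rfl⟩; exact flex_le_one w⟩
    ⟨u, squareFree, purelyMorphic, rfl⟩)

theorem le_Mm : 3 / 16 ≤ Mm :=
  le_flex.trans (le_csSup ⟨1, by rintro _ ⟨w, -, -, rfl⟩; exact flex_le_one w⟩
    ⟨u, squareFree, purelyMorphic.morphic, rfl⟩)

/-- There is a purely morphic ternary square-free word with a wildcard set of density `3/16`.
Together with the known upper bound (the hypothesis of the last part) this determines both
suprema: `Mpm = Mm = 3/16`. -/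
theorem result :
    (∃ u : ℕ → Fin 3, PurelyMorphic u ∧ SquareFree u ∧
      ∃ P : Set ℕ, WildcardSet u P ∧ density P = 3 / 16) ∧
    3 / 16 ≤ Mpm ∧ 3 / 16 ≤ Mm ∧
    ((∀ w : ℕ → Fin 3, SquareFree w → flex w ≤ 3 / 16) → Mpm = 3 / 16 ∧ Mm = 3 / 16) := by
  refine ⟨⟨u, purelyMorphic, squareFree, PP, wildcard, density_PP⟩, le_Mpm, le_Mm, fun H => ⟨?_, ?_⟩⟩
  · refine le_antisymm (Real.sSup_le ?_ (by norm_num)) le_Mpm
    rintro _ ⟨w, hw, -, rfl⟩
    exact H w hw
  · refine le_antisymm (Real.sSup_le ?_ (by norm_num)) le_Mm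
    rintro _ ⟨w, hw, -, rfl⟩
    exact H w hw

end Pool.Agent.Results.MP_0e1483_co.Flexibility
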